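import Pool.Agent.TH513.IS.Final

set_option autoImplicit false
open scoped Pointwise

namespace Pool.Agent.Results.MP_dd2a7c_co.IteratedSumsets

/-- Freiman-Ruzsa theorem with polynomial bounds for iterated sumsets, in an arbitrary abelian
group: if the `n`-fold sumset of the finite nonempty set `A` has at most `L |A|` elements, where
`n ≥ 2` and `log (2 L) ≤ n ^ k`, then `A` is covered by `(2 L) ^ (86000 k)` translates of a centred
convex coset progression of dimension at most `420 (1 + log (2 L) / log n)` and volume at most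
`|A|`. -/
theorem result {Γ : Type*} [AddCommGroup Γ] [DecidableEq Γ] (k n : ℕ) (hk : 1 ≤ k) (hn : 2 ≤ n)
    (L : ℝ) (A : Finset Γ) (hA : A.Nonempty)
    (hL : (((Fintype.piFinset fun _ : Fin n => A).image fun f => ∑ i, f i).card : ℝ) ≤
      L * (A.card : ℝ))
    (hkn : Real.log (2 * L) ≤ (n : ℝ) ^ k) :
    ∃ (d : ℕ) (B : Set (Fin d → ℝ)) (ψ : (Fin d → ℤ) →+ Γ) (H : AddSubgroup Γ) (T : Finset Γ),
      (d : ℝ) ≤ 420 * (1 + Real.log (2 * L) / Real.log n) ∧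
      Convex ℝ B ∧ IsCompact B ∧ (interior B).Nonempty ∧ (∀ x ∈ B, -x ∈ B) ∧
      Finite H ∧
      {x : Fin d → ℤ | (fun i => (x i : ℝ)) ∈ B}.ncard * Nat.card H ≤ A.card ∧
      (T.card : ℝ) ≤ (2 * L) ^ (86000 * k) ∧
      ∀ a ∈ A, ∃ t ∈ T, ∃ x : Fin d → ℤ, (fun i => (x i : ℝ)) ∈ B ∧
        ∃ h ∈ H, a = t + ψ x + h := by
  obtain ⟨d, B, ψ, H, T, hd, hB, hH, hvol, hT, hcov⟩ := TH513.IS.iterated hk hn hA hL hkn
  exact ⟨d, B, ψ, H, T, hd, hB.1, hB.2.1, hB.2.2.1, hB.2.2.2, hH, hvol, hT, hcov⟩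

end Pool.Agent.Results.MP_dd2a7c_co.IteratedSumsets
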