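import Pool.Agent.TH513.PT.Final

set_option autoImplicit false
open scoped Pointwise

namespace Pool.Agent.Results.MP_dd2a7c_co.PolynomialTranslates

/-- A finite nonempty set `A` in an arbitrary abelian group with `|A+A| ≤ K|A|` is covered by
polynomially many, `(2K)^(7000 k)`, translates of a centred convex coset progression of dimension
at most `18000 k log 2K` and volume at most `exp(2·10^9 k (log 2K)^(1+1/k)) |A|`, for every
`k ≥ 1`. -/
theorem result {Γ : Type*} [AddCommGroup Γ] [DecidableEq Γ] (k : ℕ) (hk : 1 ≤ k) (K : ℝ)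
    (A : Finset Γ) (hA : A.Nonempty) (hK : ((A + A).card : ℝ) ≤ K * (A.card : ℝ)) :
    ∃ (d : ℕ) (B : Set (Fin d → ℝ)) (ψ : (Fin d → ℤ) →+ Γ) (H : AddSubgroup Γ) (T : Finset Γ),
      (d : ℝ) ≤ 18000 * k * Real.log (2 * K) ∧
      Convex ℝ B ∧ IsCompact B ∧ (interior B).Nonempty ∧ (∀ x ∈ B, -x ∈ B) ∧
      Finite H ∧
      ({x : Fin d → ℤ | (fun i => (x i : ℝ)) ∈ B}.ncard : ℝ) * (Nat.card H : ℝ) ≤
        Real.exp (2 * 10 ^ 9 * k * (Real.log (2 * K)) ^ (1 + 1 / (k : ℝ))) * (A.card : ℝ) ∧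
      (T.card : ℝ) ≤ (2 * K) ^ (7000 * k) ∧
      ∀ a ∈ A, ∃ t ∈ T, ∃ x : Fin d → ℤ, (fun i => (x i : ℝ)) ∈ B ∧
        ∃ h ∈ H, a = t + ψ x + h := by
  obtain ⟨d, B, ψ, H, T, hd, hB, hH, hvol, hT, hcov⟩ := TH513.PT.poly_translates hA hK hk
  refine ⟨d, B, ψ, H, T, hd, hB.1, hB.2.1, hB.2.2.1, hB.2.2.2, hH, ?_, hT, hcov⟩
  have h := hvol
  push_cast at h
  exact h

end Pool.Agent.Results.MP_dd2a7c_co.PolynomialTranslates
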