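import Pool.Agent.TH404.Tor.Final

set_option autoImplicit false
open scoped Pointwise

universe u

namespace Pool.Agent.Results.MP_dd2a7c_co.TorsionLogExponent

/-- Marton's conjecture in abelian groups of exponent dividing `m`, for every `m`, with an exponent
`O(log m)`, uniformly in `K`: if `m • Γ = 0` and `|A + A| ≤ K |A|`, then `A` is covered by at most
`(2K) ^ (41005 (⌊log₂ m⌋ + 1))` cosets of a subgroup of cardinality at most `|A|`; and the matching
lower bound: for every `m` there is `A ⊆ ℤ/m` with `|A + A| ≤ 2 |A|` that is not covered by fewer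
than `⌊√m⌋` cosets of a subgroup of cardinality at most `|A|`. -/
theorem result (m : ℕ) (hm : 0 < m) :
    (∀ (Γ : Type u) [AddCommGroup Γ] [DecidableEq Γ], (∀ x : Γ, m • x = 0) →
      ∀ (K : ℝ) (A : Finset Γ), A.Nonempty → ((A + A).card : ℝ) ≤ K * (A.card : ℝ) →
        ∃ (H : AddSubgroup Γ) (T : Finset Γ), Finite H ∧ Nat.card H ≤ A.card ∧
          (T.card : ℝ) ≤ (2 * K) ^ (41005 * (Nat.log 2 m + 1)) ∧ ∀ a ∈ A, ∃ t ∈ T, a - t ∈ H) ∧
    (∃ A : Finset (ZMod m), A.Nonempty ∧ (A + A).card ≤ 2 * A.card ∧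
      ∀ (H : AddSubgroup (ZMod m)) (T : Finset (ZMod m)), Nat.card H ≤ A.card →
        (∀ a ∈ A, ∃ t ∈ T, a - t ∈ H) → Nat.sqrt m ≤ T.card) :=
  ⟨fun _ _ _ htor K A hA hK => Pool.Agent.TH404.Tor.upper m hm htor K A hA hK,
    Pool.Agent.TH404.Tor.lower m hm⟩

end Pool.Agent.Results.MP_dd2a7c_co.TorsionLogExponent
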