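import Pool.Agent.TH414.UD.Q1

set_option autoImplicit false
open scoped Pointwise

universe u

namespace Pool.Agent.Results.MP_dd2a7c_co.UniformDilates

/-- Polynomial Freiman-Ruzsa theorem in every abelian group, with absolute exponents, for sets all
of whose sums of dilates are small.

Let `Γ` be an abelian group and `A ⊆ Γ` finite and nonempty with `|A + n A| ≤ K |A|` for all
natural numbers `n`, where `n A = {n a : a ∈ A}`. Then `A` is covered by at most `K ^ 5406` cosets
of a finite subgroup of order at most `K ^ 5404 |A|`, and `A` is covered by at most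
`8 K ^ 10812` translates of a centred convex coset progression of dimension `1` and volume at most
`|A|`. -/
theorem result (Γ : Type u) [AddCommGroup Γ] [DecidableEq Γ] (K : ℝ) (A : Finset Γ)
    (hA : A.Nonempty)
    (hdil : ∀ n : ℕ, ((A + A.image (fun a => n • a)).card : ℝ) ≤ K * (A.card : ℝ)) :
    (∃ (H : AddSubgroup Γ) (T : Finset Γ), Finite H ∧ (Nat.card H : ℝ) ≤ K ^ 5404 * A.card ∧
      (T.card : ℝ) ≤ K ^ 5406 ∧ ∀ a ∈ A, ∃ t ∈ T, a - t ∈ H) ∧
    (∃ (B : Set (Fin 1 → ℝ)) (ψ : (Fin 1 → ℤ) →+ Γ) (H : AddSubgroup Γ) (T : Finset Γ),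
      Convex ℝ B ∧ IsCompact B ∧ (interior B).Nonempty ∧ (∀ x ∈ B, -x ∈ B) ∧
      Finite H ∧
      {x : Fin 1 → ℤ | (fun i => (x i : ℝ)) ∈ B}.ncard * Nat.card H ≤ A.card ∧
      (T.card : ℝ) ≤ 8 * K ^ 10812 ∧
      ∀ a ∈ A, ∃ t ∈ T, ∃ x : Fin 1 → ℤ, (fun i => (x i : ℝ)) ∈ B ∧
        ∃ h ∈ H, a = t + ψ x + h) := by
  rename_i d
  have hd : d = (fun a b => Classical.propDecidable (a = b)) := Subsingleton.elim _ _
  subst hd
  exact Pool.Agent.TH414.UD.q1A A hA K hdil

end Pool.Agent.Results.MP_dd2a7c_co.UniformDilates
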